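import Pool.Agent.H3.BI.Stm2

/-!
# Part CNT of project BD: lattice points in balls
-/

set_option autoImplicit false

open Finset MeasureTheory
open Pool.Agent.H3.BI

namespace Pool.Agent.H33.BD

/-- unit cube with lowest corner `x` -/
def cube {d : ℕ} (x : Site d) : Set (EuclideanSpace ℝ (Fin d)) :=
  {y | ∀ i, (x i : ℝ) ≤ y i ∧ y i < (x i : ℝ) + 1}

theorem cube_eq {d : ℕ} (x : Site d) :
    cube x = (WithLp.ofLp : EuclideanSpace ℝ (Fin d) → (Fin d → ℝ)) ⁻¹'
      (Set.pi Set.univ fun i => Set.Ico ((x i : ℝ)) ((x i : ℝ) + 1)) := by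
  ext y
  simp [cube, Set.mem_pi]

theorem meas_pi {d : ℕ} (x : Site d) :
    MeasurableSet (Set.pi Set.univ fun i => Set.Ico ((x i : ℝ)) ((x i : ℝ) + 1)) :=
  MeasurableSet.univ_pi fun _ => measurableSet_Ico

theorem cube_meas {d : ℕ} (x : Site d) : MeasurableSet (cube x) := by
  rw [cube_eq]
  exact (PiLp.volume_preserving_ofLp (Fin d)).measurable (meas_pi x)

theorem cube_vol {d : ℕ} (x : Site d) : volume (cube x) = 1 := by
  rw [cube_eq, (PiLp.volume_preserving_ofLp (Fin d)).measure_preimage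
    (meas_pi x).nullMeasurableSet, Real.volume_pi_Ico]
  simp

theorem cube_disj {d : ℕ} {x x' : Site d} (h : x ≠ x') : Disjoint (cube x) (cube x') := by
  rw [Set.disjoint_left]
  intro y h1 h2
  apply h
  funext i
  have a := h1 i
  have b := h2 i
  have e1 : (x i : ℝ) < (x' i : ℝ) + 1 := a.1.trans_lt b.2
  have e2 : (x' i : ℝ) < (x i : ℝ) + 1 := b.1.trans_lt a.2
  have e1' : x i < x' i + 1 := by exact_mod_cast e1
  have e2' : x' i < x i + 1 := by exact_mod_cast e2
  omega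

theorem vol_union {d : ℕ} (S : Finset (Site d)) :
    volume (⋃ x ∈ S, cube x) = (S.card : ENNReal) := by
  rw [measure_biUnion_finset]
  · simp [cube_vol]
  · intro x _ x' _ h
    exact cube_disj h
  · intro x _
    exact cube_meas x

/-- the lattice point as a point of the Euclidean space -/
noncomputable def pt {d : ℕ} (x : Site d) : EuclideanSpace ℝ (Fin d) :=
  WithLp.toLp 2 fun i => (x i : ℝ)

theorem norm_pt {d : ℕ} (x : Site d) : ‖pt x‖ = nrm x := by
  rw [EuclideanSpace.norm_eq, nrm, nsq]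
  simp [pt]

theorem dist_cube {d : ℕ} (x : Site d) {y : EuclideanSpace ℝ (Fin d)} (hy : y ∈ cube x) :
    ‖y - pt x‖ ≤ d := by
  have h1 : ‖y - pt x‖ ^ 2 ≤ (d : ℝ) := by
    rw [EuclideanSpace.norm_sq_eq]
    calc ∑ i, ‖(y - pt x) i‖ ^ 2 ≤ ∑ _i : Fin d, (1 : ℝ) := by
          apply Finset.sum_le_sum
          intro i _
          have := hy i
          have e : (y - pt x) i = y i - x i := by simp [pt]
          rw [e, Real.norm_eq_abs, abs_of_nonneg (by linarith [this.1])]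
          have h0 : 0 ≤ y i - x i := by linarith [this.1]
          have h2 : y i - x i ≤ 1 := by linarith [this.2]
          nlinarith
      _ = d := by simp
  rcases Nat.eq_zero_or_pos d with h0 | h0
  · subst h0
    have : ‖y - pt x‖ ^ 2 ≤ 0 := by simpa using h1
    have h3 : ‖y - pt x‖ = 0 := by nlinarith [norm_nonneg (y - pt x)]
    rw [h3]; simp
  · have hd : (1 : ℝ) ≤ d := by exact_mod_cast h0
    nlinarith [norm_nonneg (y - pt x)]

theorem vol_cb {d : ℕ} (hd : 3 ≤ d) {r : ℝ} (hr : 0 ≤ r) :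
    volume (Metric.closedBall (0 : EuclideanSpace ℝ (Fin d)) r) =
      ENNReal.ofReal (r ^ d * om d) := by
  haveI : Nonempty (Fin d) := ⟨⟨0, by omega⟩⟩
  rw [Measure.addHaar_closedBall _ _ hr, finrank_euclideanSpace, Fintype.card_fin, om,
    ENNReal.ofReal_mul (by positivity), ENNReal.ofReal_toReal]
  exact Metric.isBounded_ball.measure_lt_top.ne

theorem om_pos {d : ℕ} : 0 < om d := by
  unfold om
  apply ENNReal.toReal_pos
  · exact (Metric.measure_ball_pos volume _ one_pos).ne'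
  · exact Metric.isBounded_ball.measure_lt_top.ne

theorem upper {d : ℕ} (hd : 3 ≤ d) {ρ : ℝ} (hρ : 0 ≤ ρ) :
    ((bF d ρ).card : ℝ) ≤ om d * (ρ + d) ^ d := by
  have h : (⋃ x ∈ bF d ρ, cube x) ⊆ Metric.closedBall (0 : EuclideanSpace ℝ (Fin d)) (ρ + d) := by
    intro y hy
    simp only [Set.mem_iUnion, exists_prop] at hy
    obtain ⟨x, hx, hy⟩ := hy
    rw [mem_bF] at hx
    rw [Metric.mem_closedBall, dist_zero_right]
    calc ‖y‖ = ‖pt x + (y - pt x)‖ := by congr 1; abel
      _ ≤ ‖pt x‖ + ‖y - pt x‖ := norm_add_le _ _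
      _ ≤ ρ + d := by
        rw [norm_pt]
        exact add_le_add hx (dist_cube x hy)
  have h2 := measure_mono (μ := volume) h
  rw [vol_union, vol_cb hd (by positivity)] at h2
  have h3 := ENNReal.toReal_mono ENNReal.ofReal_ne_top h2
  rw [ENNReal.toReal_ofReal (mul_nonneg (by positivity) om_pos.le)] at h3
  simp only [ENNReal.toReal_natCast] at h3
  linarith

theorem lower {d : ℕ} (hd : 3 ≤ d) {ρ : ℝ} (hρ : (d : ℝ) ≤ ρ) :
    om d * (ρ - d) ^ d ≤ ((bF d ρ).card : ℝ) := by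
  have h : Metric.closedBall (0 : EuclideanSpace ℝ (Fin d)) (ρ - d) ⊆
      (⋃ x ∈ bF d ρ, cube x) := by
    intro y hy
    rw [Metric.mem_closedBall, dist_zero_right] at hy
    simp only [Set.mem_iUnion, exists_prop]
    have hc : y ∈ cube (fun i => ⌊y i⌋) := by
      intro i
      exact ⟨Int.floor_le _, Int.lt_floor_add_one _⟩
    refine ⟨fun i => ⌊y i⌋, ?_, hc⟩
    rw [mem_bF, ← norm_pt]
    have := dist_cube _ hc
    calc ‖pt (fun i => ⌊y i⌋)‖ = ‖y - (y - pt (fun i => ⌊y i⌋))‖ := by congr 1; abel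
      _ ≤ ‖y‖ + ‖y - pt (fun i => ⌊y i⌋)‖ := norm_sub_le _ _
      _ ≤ ρ := by linarith
  have h2 := measure_mono (μ := volume) h
  rw [vol_union, vol_cb hd (by linarith)] at h2
  have h3 := ENNReal.toReal_mono (ENNReal.natCast_ne_top _) h2
  rw [ENNReal.toReal_ofReal (mul_nonneg (pow_nonneg (by linarith) _) om_pos.le)] at h3
  simp only [ENNReal.toReal_natCast] at h3
  linarith

theorem pow_diff {d : ℕ} (hd : 1 ≤ d) {a b : ℝ} (ha : 0 ≤ a) (hab : a ≤ b) :
    b ^ d - a ^ d ≤ d * (b - a) * b ^ (d - 1) := by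
  obtain ⟨m, rfl⟩ : ∃ m, d = m + 1 := ⟨d - 1, by omega⟩
  simp only [Nat.add_sub_cancel]
  have hb : 0 ≤ b := ha.trans hab
  induction m with
  | zero => simp
  | succ m ih =>
    have h1 := ih (by omega)
    have h2 : a ^ (m + 1) ≤ b ^ (m + 1) := pow_le_pow_left₀ ha hab _
    have e : b ^ (m + 1 + 1) - a ^ (m + 1 + 1) =
        b * (b ^ (m + 1) - a ^ (m + 1)) + (b - a) * a ^ (m + 1) := by ring
    have h3 : b * (b ^ (m + 1) - a ^ (m + 1)) ≤ b * (((m + 1 : ℕ) : ℝ) * (b - a) * b ^ m) :=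
      mul_le_mul_of_nonneg_left h1 hb
    have h4 : (b - a) * a ^ (m + 1) ≤ (b - a) * b ^ (m + 1) :=
      mul_le_mul_of_nonneg_left h2 (by linarith)
    have e2 : b * (((m + 1 : ℕ) : ℝ) * (b - a) * b ^ m) + (b - a) * b ^ (m + 1) =
        ((m + 1 + 1 : ℕ) : ℝ) * (b - a) * b ^ (m + 1) := by push_cast; ring
    linarith

/-- **CNT.** -/
theorem t_CNT : S_CNT := by
  intro d hd
  refine ⟨om_pos, ?_⟩
  have hom := om_pos (d := d)
  have hd1 : (1 : ℝ) ≤ d := by exact_mod_cast (show 1 ≤ d by omega)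
  refine ⟨om d * (d * d * (1 + d) ^ (d - 1)) + 1, by
    have : 0 ≤ om d * (d * d * (1 + d : ℝ) ^ (d - 1)) := by positivity
    linarith, ?_⟩
  intro ρ hρ
  have hρ0 : 0 < ρ := by linarith
  have hρp : 0 < ρ ^ (d - 1) := by positivity
  have hbig : (ρ + d) ^ (d - 1) ≤ (1 + d) ^ (d - 1) * ρ ^ (d - 1) := by
    rw [← mul_pow]
    apply pow_le_pow_left₀ (by positivity)
    nlinarith
  rw [abs_le]
  constructor
  · -- lower bound
    have key : om d * ρ ^ d - om d * (d * d * ρ ^ (d - 1)) ≤ ((bF d ρ).card : ℝ) := by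
      by_cases h : (d : ℝ) ≤ ρ
      · have h1 := lower hd h
        have h2 := pow_diff (d := d) (by omega) (show 0 ≤ ρ - d by linarith)
          (show ρ - d ≤ ρ by linarith)
        have e : ρ - (ρ - d) = (d : ℝ) := by ring
        rw [e] at h2
        have h3 : om d * (ρ ^ d - (ρ - d) ^ d) ≤ om d * (d * d * ρ ^ (d - 1)) :=
          mul_le_mul_of_nonneg_left h2 hom.le
        nlinarith
      · push Not at h
        have h1 : ρ ^ d ≤ d * ρ ^ (d - 1) := by
          obtain ⟨m, hm⟩ : ∃ m, d = m + 1 := ⟨d - 1, by omega⟩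
          have : ρ ^ d = ρ * ρ ^ (d - 1) := by
            rw [hm]; simp [pow_succ]; ring
          rw [this]
          exact mul_le_mul_of_nonneg_right h.le hρp.le
        have h2 : (d : ℝ) * ρ ^ (d - 1) ≤ d * d * ρ ^ (d - 1) := by
          have : 0 ≤ (d : ℝ) * ρ ^ (d - 1) := by positivity
          nlinarith
        have h3 : om d * ρ ^ d ≤ om d * (d * d * ρ ^ (d - 1)) :=
          mul_le_mul_of_nonneg_left (h1.trans h2) hom.le
        have h4 : (0 : ℝ) ≤ ((bF d ρ).card : ℝ) := by positivity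
        linarith
    have h5 : (1 : ℝ) ≤ (1 + d : ℝ) ^ (d - 1) := one_le_pow₀ (by linarith)
    have h6 : om d * (d * d * ρ ^ (d - 1)) ≤ om d * (d * d * (1 + d) ^ (d - 1)) * ρ ^ (d - 1) := by
      have h7 : 0 ≤ om d * (d * d) * ρ ^ (d - 1) := by positivity
      nlinarith
    nlinarith
  · have h1 := upper hd hρ0.le
    have h2 := pow_diff (d := d) (by omega) hρ0.le (show ρ ≤ ρ + d by linarith)
    have e : ρ + d - ρ = (d : ℝ) := by ring
    rw [e] at h2
    have h3 : om d * ((ρ + d) ^ d - ρ ^ d) ≤ om d * (d * d * (ρ + d) ^ (d - 1)) :=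
      mul_le_mul_of_nonneg_left h2 hom.le
    have h4 : om d * (d * d * (ρ + d) ^ (d - 1)) ≤
        om d * (d * d * ((1 + d) ^ (d - 1) * ρ ^ (d - 1))) := by
      apply mul_le_mul_of_nonneg_left _ hom.le
      apply mul_le_mul_of_nonneg_left hbig (by positivity)
    nlinarith

end Pool.Agent.H33.BD
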