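import Pool.Agent.H3.BI.Stm2

/-!
# Part QV2 of project BD: the quadratic variation in the second regime
-/

set_option autoImplicit false

open Finset MeasureTheory
open Pool.Agent.H3.BI

namespace Pool.Agent.H33.BD.QV2

/-- the lattice point as a point of the Euclidean space -/
noncomputable def pt {d : ℕ} (x : Site d) : EuclideanSpace ℝ (Fin d) :=
  WithLp.toLp 2 fun i => (x i : ℝ)

theorem norm_pt {d : ℕ} (x : Site d) : ‖pt x‖ = nrm x := by
  rw [EuclideanSpace.norm_eq, nrm, nsq]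
  simp [pt]

theorem pt_sub {d : ℕ} (x y : Site d) : pt (x - y) = pt x - pt y := by
  ext i
  simp [pt]

theorem nrm_sub_le {d : ℕ} (x y : Site d) : nrm (x - y) ≤ nrm x + nrm y := by
  rw [← norm_pt, ← norm_pt x, ← norm_pt y, pt_sub]
  exact norm_sub_le _ _

theorem nrm_le_add {d : ℕ} (x y : Site d) : nrm y ≤ nrm x + nrm (x - y) := by
  have h := norm_sub_le (pt x) (pt x - pt y)
  have e : pt x - (pt x - pt y) = pt y := by abel
  rw [e, ← pt_sub, norm_pt, norm_pt, norm_pt] at h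
  exact h

theorem one_le_nsq {d : ℕ} {z : Site d} (hz : z ≠ 0) : 1 ≤ nsq z := by
  obtain ⟨i, hi⟩ : ∃ i, z i ≠ 0 := by
    by_contra h
    push Not at h
    exact hz (funext h)
  have h1 : (1 : ℝ) ≤ (z i : ℝ) ^ 2 := by
    have : (1 : ℤ) ≤ z i ^ 2 := by
      have := sq_nonneg (z i)
      rcases lt_or_gt_of_ne hi with h | h <;> nlinarith
    exact_mod_cast this
  exact h1.trans (Finset.single_le_sum (f := fun i => (z i : ℝ) ^ 2)
      (fun _ _ => sq_nonneg _) (Finset.mem_univ i))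

theorem ta_cases (d : ℕ) (hd : 3 ≤ d) : (d = 3 ∧ ta d = 1) ∨ (4 ≤ d ∧ ta d = 0) := by
  unfold ta
  rcases Nat.lt_or_ge 3 d with h | h
  · right; refine ⟨h, ?_⟩; rw [if_neg (by omega)]
  · left; have : d = 3 := by omega
    exact ⟨this, by rw [if_pos this]⟩

theorem two_ta {d : ℕ} (hd : 3 ≤ d) {ρ : ℝ} (hρ : 1 ≤ ρ) : (2 * ρ) ^ ta d ≤ 2 * ρ ^ ta d := by
  rcases ta_cases d hd with ⟨_, h⟩ | ⟨_, h⟩ <;> rw [h]
  · simp
  · simp

theorem lemA {d : ℕ} (hd : 3 ≤ d) {ρ s : ℝ} (hρ : 1 ≤ ρ) (hs : 1 ≤ s) (hs2 : s ≤ (2 * ρ) ^ 2) :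
    s ^ (-(2 * bt d)) ≤ (2 * ρ) ^ ta d * s ^ (-((d : ℝ) / 2)) := by
  have hs0 : 0 < s := by linarith
  rcases ta_cases d hd with ⟨h3, h⟩ | ⟨h4, h⟩ <;> rw [h]
  · subst h3
    have e1 : -(2 * bt 3) = (1 / 2 : ℝ) + -(((3 : ℕ) : ℝ) / 2) := by unfold bt; norm_num
    rw [e1, Real.rpow_add hs0, Real.rpow_one]
    apply mul_le_mul_of_nonneg_right _ (Real.rpow_nonneg hs0.le _)
    rw [← Real.sqrt_eq_rpow]
    exact (Real.sqrt_le_left (by linarith)).2 hs2
  · rw [Real.rpow_zero, one_mul]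
    apply Real.rpow_le_rpow_of_exponent_le hs
    have : (4 : ℝ) ≤ d := by exact_mod_cast h4
    unfold bt; linarith

theorem lemB {d : ℕ} (hd : 3 ≤ d) {ρ t v : ℝ} (hρ : 1 ≤ ρ) (ht : 1 ≤ t) (ht2 : t ≤ (2 * ρ) ^ 2)
    (hv : v ≤ t) :
    t ^ (-(2 * bt d)) * v ≤ (2 * ρ) ^ ta d * t ^ (-bt d) := by
  have ht0 : 0 < t := by linarith
  have h1 : t ^ (-(2 * bt d)) * v ≤ t ^ (-(2 * bt d)) * t :=
    mul_le_mul_of_nonneg_left hv (Real.rpow_nonneg ht0.le _)
  refine h1.trans ?_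
  have e : t ^ (-(2 * bt d)) * t = t ^ (1 - bt d) * t ^ (-bt d) := by
    rw [← Real.rpow_add ht0]
    conv_lhs => rw [← Real.rpow_one t, ← Real.rpow_mul ht0.le, ← Real.rpow_add ht0]
    congr 1; ring
  rw [e]
  apply mul_le_mul_of_nonneg_right _ (Real.rpow_nonneg ht0.le _)
  rcases ta_cases d hd with ⟨h3, h⟩ | ⟨h4, h⟩ <;> rw [h]
  · subst h3
    have e1 : 1 - bt 3 = (1 / 2 : ℝ) := by unfold bt; norm_num
    rw [e1, Real.rpow_one, ← Real.sqrt_eq_rpow]
    exact (Real.sqrt_le_left (by linarith)).2 ht2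
  · rw [Real.rpow_zero]
    apply Real.rpow_le_one_of_one_le_of_nonpos ht
    have : (4 : ℝ) ≤ d := by exact_mod_cast h4
    unfold bt; linarith

/-- **QV2.** -/
theorem t_QV2 : S_QV2 := by
  intro hSPR hDUA hLAT d K hd hK
  have hd3 : (3 : ℝ) ≤ d := by exact_mod_cast hd
  obtain ⟨a, ha3, hsup, hmm⟩ := hSPR d hd
  obtain ⟨_, _, hm0, hmx⟩ := hmm a le_rfl
  obtain ⟨C₁, hC₁, hlat⟩ := hLAT d hd
  have hβ : 0 < bt d := by unfold bt; linarith
  have hd2 : 0 < 2 / ((d : ℝ) - 2) := div_pos two_pos (by linarith)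
  -- the function h
  set c := kk d a 0 - PP (kk d a) 0 with hc
  have hc0 : 0 < c := by
    have : 0 < 2 / ((d : ℝ) - 2) * c := hm0
    exact (mul_pos_iff_of_pos_left hd2).1 this
  have hsup' : ∀ x, PP (kk d a) x ≤ kk d a x := by
    intro x
    have h := (hmx x).1
    unfold mm at h
    have := (mul_nonneg_iff_of_pos_left hd2).1 h
    linarith
  set F : ℝ := 4 ^ bt d with hF
  set G : ℝ := 4 ^ (2 * bt d) with hG
  have hF0 : 0 < F := Real.rpow_pos_of_pos (by norm_num) _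
  have hG0 : 0 < G := Real.rpow_pos_of_pos (by norm_num) _
  refine ⟨K / c * (F * (2 * C₁) + G * (2 * C₁)) + 1, by
    have : 0 ≤ K / c * (F * (2 * C₁) + G * (2 * C₁)) := by positivity
    linarith, ?_⟩
  intro R z q w hR hz hq hqb hGP
  have hz1 := one_le_nsq hz
  have hzn : 1 ≤ nrm z := by
    rw [nrm]; exact Real.one_le_sqrt.2 hz1
  set ρ := R + nrm z with hρ
  have hρ1 : 1 ≤ ρ := by linarith
  set t := nsq z + 1 with ht
  have ht1 : 1 ≤ t := by linarith
  have ht0 : 0 < t := by linarith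
  have htρ : t ≤ (2 * ρ) ^ 2 := by
    have : nrm z ≤ ρ := by linarith
    have h2 := nrm_sq z
    nlinarith
  have hlog : 0 ≤ Real.log ρ := Real.log_nonneg hρ1
  -- duality
  have hdual := hDUA d R q w (kk d a) hd (by linarith) hGP
    (fun x _ => Real.rpow_nonneg (by linarith [nsq_nonneg x]) _) (fun x _ => hsup' x)
  rw [← hc] at hdual
  have hs1 : ∀ x : Site d, 1 ≤ nsq x + 1 := fun x => by linarith [nsq_nonneg x]
  have hs0 : ∀ x : Site d, 0 < nsq x + 1 := fun x => by linarith [nsq_nonneg x]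
  -- termwise bound
  have hterm : ∀ x ∈ bF d R, q x * kk d a x ≤
      K * (F * t ^ (-bt d) * ((2 * ρ) ^ ta d * (nsq (x - z) + 1) ^ (-((d : ℝ) / 2)))) +
      (if nrm x ≤ nrm z then K * (G * t ^ (-(2 * bt d)) * (nsq (x - 0) + 1) ^ (-bt d)) else 0) := by
    intro x hx
    rw [mem_bF] at hx
    have hq1 := hqb x hx
    have hk1 : kk d a x ≤ (nsq x + 1) ^ (-bt d) := by
      unfold kk
      apply Real.rpow_le_rpow_of_nonpos (hs0 x) (by linarith) (by linarith)
    have hk0 : 0 ≤ kk d a x := Real.rpow_nonneg (by linarith [nsq_nonneg x]) _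
    have hbase : q x * kk d a x ≤
        K * (nsq (x - z) + 1) ^ (-(2 * bt d)) * (nsq x + 1) ^ (-bt d) :=
      mul_le_mul hq1 hk1 hk0 (mul_nonneg (by linarith) (Real.rpow_nonneg (hs0 _).le _))
    have hpos1 : 0 ≤ K * (F * t ^ (-bt d) *
        ((2 * ρ) ^ ta d * (nsq (x - z) + 1) ^ (-((d : ℝ) / 2)))) := by
      have h1 : 0 ≤ t ^ (-bt d) := Real.rpow_nonneg ht0.le _
      have h2 : 0 ≤ (2 * ρ) ^ ta d := Real.rpow_nonneg (by linarith) _
      have h3 : 0 ≤ (nsq (x - z) + 1) ^ (-((d : ℝ) / 2)) := Real.rpow_nonneg (hs0 _).le _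
      positivity
    by_cases hcase : nrm z ≤ 2 * nrm x
    · -- first region
      have h1 : (nsq x + 1) ^ (-bt d) ≤ F * t ^ (-bt d) := by
        have h2 : t / 4 ≤ nsq x + 1 := by
          have a1 := nrm_sq z
          have a2 := nrm_sq x
          have a3 : nrm z ^ 2 ≤ (2 * nrm x) ^ 2 := pow_le_pow_left₀ (nrm_nonneg z) hcase 2
          nlinarith
        have h3 : (nsq x + 1) ^ (-bt d) ≤ (t / 4) ^ (-bt d) :=
          Real.rpow_le_rpow_of_nonpos (by linarith) h2 (by linarith)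
        have h4 : (t / 4) ^ (-bt d) = F * t ^ (-bt d) := by
          rw [Real.div_rpow ht0.le (by norm_num), Real.rpow_neg (by norm_num : (0:ℝ) ≤ 4), hF]
          rw [div_inv_eq_mul]; ring
        rw [← h4]; exact h3
      have hsx : nsq (x - z) + 1 ≤ (2 * ρ) ^ 2 := by
        have h2 := nrm_sub_le x z
        have h3 := nrm_sq (x - z)
        have h4 := nrm_nonneg (x - z)
        have h5 : nrm (x - z) ≤ ρ := by linarith
        nlinarith
      have h2 := lemA hd hρ1 (hs1 (x - z)) hsx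
      have h3 : K * (nsq (x - z) + 1) ^ (-(2 * bt d)) * (nsq x + 1) ^ (-bt d) ≤
          K * ((2 * ρ) ^ ta d * (nsq (x - z) + 1) ^ (-((d : ℝ) / 2))) * (F * t ^ (-bt d)) := by
        apply mul_le_mul (mul_le_mul_of_nonneg_left h2 (by linarith)) h1
          (Real.rpow_nonneg (hs0 x).le _)
        exact mul_nonneg (by linarith) (mul_nonneg (Real.rpow_nonneg (by linarith) _)
          (Real.rpow_nonneg (hs0 _).le _))
      have h4 : 0 ≤ (if nrm x ≤ nrm z then K * (G * t ^ (-(2 * bt d)) *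
          (nsq (x - 0) + 1) ^ (-bt d)) else 0) := by
        split_ifs
        · have h1 : 0 ≤ t ^ (-(2 * bt d)) := Real.rpow_nonneg ht0.le _
          have h3 : 0 ≤ (nsq (x - 0) + 1) ^ (-bt d) := Real.rpow_nonneg (hs0 _).le _
          positivity
        · exact le_rfl
      nlinarith
    · push Not at hcase
      have hxz : nrm x ≤ nrm z := by linarith [nrm_nonneg x]
      rw [if_pos hxz]
      have h1 : (nsq (x - z) + 1) ^ (-(2 * bt d)) ≤ G * t ^ (-(2 * bt d)) := by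
        have h2 : t / 4 ≤ nsq (x - z) + 1 := by
          have a1 := nrm_sq z
          have a2 := nrm_sq (x - z)
          have a4 := nrm_le_add x z
          have a5 := nrm_nonneg z
          have a3 : (nrm z / 2) ^ 2 ≤ nrm (x - z) ^ 2 :=
            pow_le_pow_left₀ (by linarith) (by linarith) 2
          nlinarith
        have h3 : (nsq (x - z) + 1) ^ (-(2 * bt d)) ≤ (t / 4) ^ (-(2 * bt d)) :=
          Real.rpow_le_rpow_of_nonpos (by linarith) h2 (by linarith)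
        have h4 : (t / 4) ^ (-(2 * bt d)) = G * t ^ (-(2 * bt d)) := by
          rw [Real.div_rpow ht0.le (by norm_num), Real.rpow_neg (by norm_num : (0:ℝ) ≤ 4), hG]
          rw [div_inv_eq_mul]; ring
        rw [← h4]; exact h3
      have h2 : K * (nsq (x - z) + 1) ^ (-(2 * bt d)) * (nsq x + 1) ^ (-bt d) ≤
          K * (G * t ^ (-(2 * bt d))) * (nsq x + 1) ^ (-bt d) := by
        apply mul_le_mul_of_nonneg_right _ (Real.rpow_nonneg (hs0 x).le _)
        exact mul_le_mul_of_nonneg_left h1 (by linarith)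
      rw [sub_zero]
      nlinarith
  -- sums
  have hsum1 : ∑ x ∈ bF d R, (nsq (x - z) + 1) ^ (-((d : ℝ) / 2)) ≤ C₁ * (1 + Real.log ρ) := by
    refine ((hlat ρ z (bF d R) hρ1).1 ?_).2.2
    intro y hy
    rw [mem_bF] at hy
    have := nrm_sub_le y z
    linarith
  have hsum2 : ∑ x ∈ (bF d R).filter (fun x => nrm x ≤ nrm z), (nsq (x - 0) + 1) ^ (-bt d) ≤
      C₁ * nrm z ^ 2 := by
    refine ((hlat (nrm z) 0 _ hzn).1 ?_).2.1
    intro y hy
    rw [Finset.mem_filter] at hy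
    rw [sub_zero]
    exact hy.2
  have htotal : ∑ x ∈ bF d R, q x * kk d a x ≤
      K * (F * t ^ (-bt d) * ((2 * ρ) ^ ta d * (C₁ * (1 + Real.log ρ)))) +
      K * (G * t ^ (-(2 * bt d)) * (C₁ * nrm z ^ 2)) := by
    refine (Finset.sum_le_sum hterm).trans ?_
    rw [Finset.sum_add_distrib, ← Finset.sum_filter]
    simp only [← Finset.mul_sum]
    have h1 : 0 ≤ t ^ (-bt d) := Real.rpow_nonneg ht0.le _
    have h2 : 0 ≤ (2 * ρ) ^ ta d := Real.rpow_nonneg (by linarith) _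
    have h3 : 0 ≤ t ^ (-(2 * bt d)) := Real.rpow_nonneg ht0.le _
    gcongr
  have hK0 : 0 < K := by linarith
  have hT : (2 * ρ) ^ ta d ≤ 2 * ρ ^ ta d := two_ta hd hρ1
  have hB := lemB hd hρ1 ht1 htρ (show nrm z ^ 2 ≤ t by rw [nrm_sq]; linarith)
  have htb : 0 < t ^ (-bt d) := Real.rpow_pos_of_pos ht0 _
  have hρt : 0 < ρ ^ ta d := Real.rpow_pos_of_pos (by linarith) _
  set X := ρ ^ ta d * (1 + Real.log ρ) * t ^ (-bt d) with hX
  have hX0 : 0 ≤ X := by positivity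
  have hp1 : K * (F * t ^ (-bt d) * ((2 * ρ) ^ ta d * (C₁ * (1 + Real.log ρ)))) ≤
      K * (F * (2 * C₁)) * X := by
    have : K * (F * t ^ (-bt d) * ((2 * ρ) ^ ta d * (C₁ * (1 + Real.log ρ)))) ≤
        K * (F * t ^ (-bt d) * ((2 * ρ ^ ta d) * (C₁ * (1 + Real.log ρ)))) := by
      gcongr
    refine this.trans (le_of_eq ?_)
    rw [hX]; ring
  have hp2 : K * (G * t ^ (-(2 * bt d)) * (C₁ * nrm z ^ 2)) ≤ K * (G * (2 * C₁)) * X := by
    have e1 : K * (G * t ^ (-(2 * bt d)) * (C₁ * nrm z ^ 2)) =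
        K * G * C₁ * (t ^ (-(2 * bt d)) * nrm z ^ 2) := by ring
    have e2 : t ^ (-(2 * bt d)) * nrm z ^ 2 ≤ 2 * X := by
      refine hB.trans ?_
      have h5 : (2 * ρ) ^ ta d * t ^ (-bt d) ≤ 2 * ρ ^ ta d * t ^ (-bt d) :=
        mul_le_mul_of_nonneg_right hT htb.le
      refine h5.trans ?_
      have h6 : 0 ≤ ρ ^ ta d * t ^ (-bt d) * Real.log ρ := by positivity
      rw [hX]
      nlinarith
    rw [e1]
    have : K * G * C₁ * (t ^ (-(2 * bt d)) * nrm z ^ 2) ≤ K * G * C₁ * (2 * X) :=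
      mul_le_mul_of_nonneg_left e2 (by positivity)
    linarith
  have hfin : c * w 0 ≤ (K * (F * (2 * C₁)) + K * (G * (2 * C₁))) * X := by
    linarith
  have hw : w 0 ≤ K / c * (F * (2 * C₁) + G * (2 * C₁)) * X := by
    have e : K / c * (F * (2 * C₁) + G * (2 * C₁)) * X =
        ((K * (F * (2 * C₁)) + K * (G * (2 * C₁))) * X) / c := by
      field_simp
    rw [e, le_div_iff₀ hc0]
    linarith
  have : (K / c * (F * (2 * C₁) + G * (2 * C₁)) + 1) * ρ ^ ta d * (1 + Real.log ρ) *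
      t ^ (-bt d) = K / c * (F * (2 * C₁) + G * (2 * C₁)) * X + X := by rw [hX]; ring
  rw [this]
  linarith

end Pool.Agent.H33.BD.QV2
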