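import Pool.Agent.H3.BI.Stm2

/-!
# Part FN1 of project BD: concentration at one time
-/

set_option autoImplicit false

open scoped ENNReal
open Finset MeasureTheory Filter
open Pool.Agent.H3.BI

namespace Pool.Agent.H33.BD.FN1

/-! ## asymptotics -/

theorem ev_pow (A : ℝ) {a b : ℝ} (h : a < b) : ∀ᶠ r : ℝ in atTop, A * r ^ a ≤ r ^ b := by
  have h1 : Tendsto (fun r : ℝ => r ^ (b - a)) atTop atTop := tendsto_rpow_atTop (by linarith)
  filter_upwards [h1.eventually_ge_atTop A, eventually_gt_atTop 0] with r h2 h3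
  have e : r ^ b = r ^ (b - a) * r ^ a := by rw [← Real.rpow_add h3]; congr 1; ring
  rw [e]
  exact mul_le_mul_of_nonneg_right h2 (Real.rpow_nonneg h3.le _)

theorem ev_log {η : ℝ} (h : 0 < η) : ∀ᶠ r : ℝ in atTop, 1 + Real.log (2 * r) ≤ r ^ η := by
  have h1 := (isLittleO_log_rpow_atTop h).bound (show (0 : ℝ) < 1 / 2 by norm_num)
  have h2 := ev_pow (2 * (1 + Real.log 2)) h
  filter_upwards [h1, h2, eventually_gt_atTop 1] with r h3 h4 h5
  rw [Real.rpow_zero, mul_one] at h4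
  have h6 : 0 ≤ r ^ η := Real.rpow_nonneg (by linarith) _
  rw [Real.norm_eq_abs, Real.norm_eq_abs, abs_of_nonneg h6] at h3
  have h7 := le_abs_self (Real.log r)
  rw [Real.log_mul two_ne_zero (by linarith)]
  linarith

theorem ev_fin {A c p : ℝ} (hc : 0 < c) : ∀ᶠ r : ℝ in atTop,
    A * r ^ p * Real.exp (-(1 / 2 * r ^ c)) ≤ Real.exp (-(r ^ (c / 2))) := by
  have h1 := tendsto_rpow_mul_exp_neg_mul_atTop_nhds_zero (p / c) (1 / 4) (by norm_num)
  have h2 := h1.comp (tendsto_rpow_atTop hc)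
  have h3 : Tendsto (fun r : ℝ => |A| * ((r ^ c) ^ (p / c) * Real.exp (-(1 / 4) * r ^ c)))
      atTop (nhds (|A| * 0)) := h2.const_mul |A|
  rw [mul_zero] at h3
  have h4 := ev_pow 4 (show c / 2 < c by linarith)
  filter_upwards [h3.eventually_le_const one_pos, h4, eventually_gt_atTop 0] with r h5 h6 h7
  have e1 : (r ^ c) ^ (p / c) = r ^ p := by
    rw [← Real.rpow_mul h7.le]; congr 1; field_simp
  rw [e1] at h5
  have h8 : 0 ≤ r ^ p := Real.rpow_nonneg h7.le _
  have h9 : A * r ^ p ≤ |A| * r ^ p := mul_le_mul_of_nonneg_right (le_abs_self A) h8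
  have e2 : Real.exp (-(1 / 2 * r ^ c)) =
      Real.exp (-(1 / 4) * r ^ c) * Real.exp (-(1 / 4) * r ^ c) := by
    rw [← Real.exp_add]; congr 1; ring
  have h10 : Real.exp (-(1 / 4) * r ^ c) ≤ Real.exp (-(r ^ (c / 2))) := by
    apply Real.exp_le_exp.2; linarith
  calc A * r ^ p * Real.exp (-(1 / 2 * r ^ c))
      ≤ |A| * r ^ p * Real.exp (-(1 / 2 * r ^ c)) :=
        mul_le_mul_of_nonneg_right h9 (Real.exp_pos _).le
    _ = (|A| * (r ^ p * Real.exp (-(1 / 4) * r ^ c))) * Real.exp (-(1 / 4) * r ^ c) := by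
        rw [e2]; ring
    _ ≤ 1 * Real.exp (-(r ^ (c / 2))) := by
        apply mul_le_mul h5 h10 (Real.exp_pos _).le zero_le_one
    _ = _ := one_mul _

/-- the parameters -/
structure Prm (d : ℕ) (al ε C K : ℝ) (r δ m h w : ℝ) (J : ℕ) : Prop where
  r1 : 1 ≤ r
  mdef : 4 * m = δ
  dle : δ + 1 ≤ r
  dpos : 1 ≤ δ
  hle : h ≤ m
  hC : C ≤ h
  hlog : ∀ x, x ≤ r → 0 ≤ x → C * (1 + Real.log (x + δ + 1)) ≤ h
  Kh : K * h ≤ r
  J2 : 2 ≤ J
  Jr : r ^ (ε / (16 * d)) ≤ J
  wC : C ≤ w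
  Jw : J * (w + 2) ≤ m
  mom : ∀ y, 1 ≤ y → y ≤ 2 * r →
    C * m * (h + (1 + m / h) * (1 + Real.log y)) * m ^ d ≤ w ^ d * m ^ 2
  e1 : ∀ x, x ≤ r → 0 ≤ x →
    r ^ (ε / 2) ≤ h ^ 4 / (C * δ ^ 2 * (x + δ + 1) ^ (2 * al) * (1 + Real.log (x + δ + 1)))
  e2 : ∀ y, 0 < y → y ≤ 2 * r →
    r ^ (ε / 2) ≤ w ^ (2 * d) * m ^ 2 / (C * m ^ (2 * d) * y ^ (2 * al + ε / 2))

theorem ev_prm (d : ℕ) (hd : 3 ≤ d) (al ε C K : ℝ) (hal : 0 ≤ al) (hal2 : al ≤ 1 / 2)
    (hε : 0 < ε) (hε4 : ε < 1 / 4) (hC : 1 ≤ C) :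
    ∀ᶠ r : ℝ in atTop, ∃ (m h w : ℝ) (J : ℕ), Prm d al ε C K r (r ^ (al + ε)) m h w J := by
  have hd3 : (3 : ℝ) ≤ d := by exact_mod_cast hd
  have hκ : 0 < ε / (16 * d) := by positivity
  have hκ2 : ε / (16 * d) ≤ ε / 48 := by
    apply div_le_div_of_nonneg_left hε.le (by norm_num) (by linarith)
  filter_upwards [eventually_ge_atTop 1,
    ev_log (show 0 < ε / 16 by positivity),
    ev_pow 2 (show al + ε < 1 by linarith),
    ev_pow 4 (show al + 3 * ε / 4 < al + ε by linarith),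
    ev_pow C (show ε / 16 < al + 3 * ε / 4 by linarith),
    ev_pow K (show al + 3 * ε / 4 < 1 by linarith),
    ev_pow 2 (show (0 : ℝ) < ε / (16 * d) from hκ),
    ev_pow (32 * C + 32) (show ε / (16 * d) < al + ε by linarith),
    ev_pow (12 * C * 8 ^ d) (show al + 13 * ε / 16 < al + ε by linarith),
    ev_pow (2 * C) (show ε / 2 + ε / 16 < ε by linarith),
    ev_pow (64 * 8 ^ (2 * d) * C) (show ε / 8 + ε / 2 + ε / 2 < 2 * ε by linarith)]
    with r hr1 hlog hd1 hhm hCh hKh hJ2 hJ hmom he1 he2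
  rw [Real.rpow_one] at hd1 hKh
  rw [Real.rpow_zero, mul_one] at hJ2
  have hr0 : 0 < r := by linarith
  obtain ⟨δ, hδ⟩ : ∃ δ, δ = r ^ (al + ε) := ⟨_, rfl⟩
  obtain ⟨h, hh⟩ : ∃ h, h = r ^ (al + 3 * ε / 4) := ⟨_, rfl⟩
  obtain ⟨u, hu⟩ : ∃ u, u = r ^ (ε / (16 * d)) := ⟨_, rfl⟩
  rw [← hδ]
  rw [← hδ] at hd1 hhm hJ hmom
  rw [← hh] at hhm hCh hKh
  rw [← hu] at hJ2 hJ
  obtain ⟨J, hJd⟩ : ∃ J, J = ⌈u⌉₊ := ⟨_, rfl⟩
  have hδ0 : 0 < δ := hδ ▸ Real.rpow_pos_of_pos hr0 _
  have hh0 : 0 < h := hh ▸ Real.rpow_pos_of_pos hr0 _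
  have hδ1 : 1 ≤ δ := hδ ▸ Real.one_le_rpow hr1 (by linarith)
  have hh1 : 1 ≤ h := hh ▸ Real.one_le_rpow hr1 (by linarith)
  have hu2 : 2 ≤ u := hJ2
  have hJu : u ≤ (J : ℝ) := hJd ▸ Nat.le_ceil u
  have hJu2 : (J : ℝ) ≤ 2 * u := by
    have := (Nat.ceil_lt_add_one (by linarith : 0 ≤ u)).le
    rw [hJd]
    linarith
  have hJ0 : 0 < (J : ℝ) := by linarith
  have hδr : δ + 1 ≤ r := by linarith
  obtain ⟨m, hm⟩ : ∃ m, m = δ / 4 := ⟨_, rfl⟩
  have hm0 : 0 < m := by rw [hm]; positivity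
  obtain ⟨w, hw⟩ : ∃ w, w = m / (4 * J) := ⟨_, rfl⟩
  have hw0 : 0 < w := by rw [hw]; positivity
  -- powers of r
  have hηp : 0 < r ^ (ε / 16) := Real.rpow_pos_of_pos hr0 _
  have hlogx : ∀ y, 1 ≤ y → y ≤ 2 * r → 1 + Real.log y ≤ r ^ (ε / 16) := by
    intro y hy1 hy2
    have := Real.log_le_log (by linarith) hy2
    linarith
  have h4J : (4 * (J : ℝ)) ^ d ≤ 8 ^ d * r ^ (ε / 16) := by
    have h1 : (4 * (J : ℝ)) ^ d ≤ (8 * u) ^ d := pow_le_pow_left₀ (by positivity) (by linarith) d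
    have h2 : u ^ d = r ^ (ε / 16) := by
      rw [hu, ← Real.rpow_natCast, ← Real.rpow_mul hr0.le]
      congr 1
      field_simp
    rw [mul_pow 8 u d, h2] at h1
    exact h1
  have hwm : w * (4 * J) = m := by rw [hw]; field_simp
  refine ⟨m, h, w, J, ?_⟩
  refine ⟨hr1, by rw [hm]; ring, hδr, hδ1, by rw [hm]; linarith, ?_, ?_, hKh, ?_, hu ▸ hJu, ?_,
    ?_, ?_, ?_, ?_⟩
  · -- C ≤ h
    have h1 : C * 1 ≤ C * r ^ (ε / 16) :=
      mul_le_mul_of_nonneg_left (Real.one_le_rpow hr1 (by linarith)) (by linarith)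
    linarith
  · intro x hx hx0
    have h1 := hlogx (x + δ + 1) (by linarith) (by linarith)
    have h2 := mul_le_mul_of_nonneg_left h1 (show 0 ≤ C by linarith)
    linarith
  · have : (2 : ℝ) ≤ J := by linarith
    exact_mod_cast this
  · -- C ≤ w
    rw [hw, le_div_iff₀ (by positivity), hm]
    nlinarith
  · -- J (w + 2) ≤ m
    have : (J : ℝ) * (w + 2) = m / 4 + 2 * J := by
      rw [← hwm]; ring
    rw [this, hm]
    nlinarith
  · intro y hy1 hy2
    have h1 := hlogx y hy1 hy2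
    have e0 : w ^ d * (4 * (J : ℝ)) ^ d = m ^ d := by rw [← mul_pow, hwm]
    have hfac : C * (4 * (J : ℝ)) ^ d * (h + (1 + m / h) * (1 + Real.log y)) ≤ m := by
      have hmh : m / h = r ^ (ε / 4) / 4 := by
        rw [hm, hδ, hh]
        have : r ^ (al + ε) = r ^ (ε / 4) * r ^ (al + 3 * ε / 4) := by
          rw [← Real.rpow_add hr0]; congr 1; ring
        rw [this]
        have hne : r ^ (al + 3 * ε / 4) ≠ 0 := hh ▸ hh0.ne'
        field_simp
      have h14 : 1 ≤ r ^ (ε / 4) := Real.one_le_rpow hr1 (by linarith)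
      have h2 : (1 + m / h) * (1 + Real.log y) ≤ (2 * r ^ (ε / 4)) * r ^ (ε / 16) := by
        have a1 : 0 ≤ 1 + m / h := by positivity
        have a2 : 1 + m / h ≤ 2 * r ^ (ε / 4) := by rw [hmh]; linarith
        calc (1 + m / h) * (1 + Real.log y) ≤ (1 + m / h) * r ^ (ε / 16) :=
              mul_le_mul_of_nonneg_left h1 a1
          _ ≤ _ := mul_le_mul_of_nonneg_right a2 hηp.le
      have h3 : (2 * r ^ (ε / 4)) * r ^ (ε / 16) ≤ 2 * h := by
        rw [mul_assoc, ← Real.rpow_add hr0, hh]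
        have : r ^ (ε / 4 + ε / 16) ≤ r ^ (al + 3 * ε / 4) :=
          Real.rpow_le_rpow_of_exponent_le hr1 (by linarith)
        linarith
      have h4 : h + (1 + m / h) * (1 + Real.log y) ≤ 3 * h := by linarith
      have h5 : C * (4 * (J : ℝ)) ^ d * (h + (1 + m / h) * (1 + Real.log y)) ≤
          C * (8 ^ d * r ^ (ε / 16)) * (3 * h) := by
        apply mul_le_mul (mul_le_mul_of_nonneg_left h4J (by linarith)) h4 _ (by positivity)
        have a1 : 0 ≤ (1 + m / h) * (1 + Real.log y) := by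
          apply mul_nonneg (by positivity)
          have := Real.log_nonneg hy1
          linarith
        linarith
      have h6 : r ^ (ε / 16) * h = r ^ (al + 13 * ε / 16) := by
        rw [hh, ← Real.rpow_add hr0]; congr 1; ring
      have h7 : C * (8 ^ d * r ^ (ε / 16)) * (3 * h) = 3 * C * 8 ^ d * r ^ (al + 13 * ε / 16) := by
        rw [← h6]; ring
      have h8 : 3 * C * 8 ^ d * r ^ (al + 13 * ε / 16) ≤ m := by rw [hm]; linarith
      linarith
    have e1 : C * m * (h + (1 + m / h) * (1 + Real.log y)) * m ^ d =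
        (C * (4 * (J : ℝ)) ^ d * (h + (1 + m / h) * (1 + Real.log y))) * (m * w ^ d) := by
      rw [← e0]; ring
    have e2 : w ^ d * m ^ 2 = m * (m * w ^ d) := by ring
    rw [e1, e2]
    exact mul_le_mul_of_nonneg_right hfac (by positivity)
  · intro x hx hx0
    have hx1 : 1 ≤ x + δ + 1 := by linarith
    have hl1 := hlogx (x + δ + 1) hx1 (by linarith)
    have hl0 : 0 < 1 + Real.log (x + δ + 1) := by
      have := Real.log_nonneg hx1
      linarith
    have hp : (x + δ + 1) ^ (2 * al) ≤ 2 * r ^ (2 * al) := by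
      calc (x + δ + 1) ^ (2 * al) ≤ (2 * r) ^ (2 * al) :=
            Real.rpow_le_rpow (by linarith) (by linarith) (by linarith)
        _ = 2 ^ (2 * al) * r ^ (2 * al) := Real.mul_rpow (by norm_num) hr0.le
        _ ≤ 2 * r ^ (2 * al) := by
            apply mul_le_mul_of_nonneg_right _ (Real.rpow_nonneg hr0.le _)
            calc (2 : ℝ) ^ (2 * al) ≤ 2 ^ (1 : ℝ) :=
                  Real.rpow_le_rpow_of_exponent_le (by norm_num) (by linarith)
              _ = 2 := Real.rpow_one 2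
    have hp0 : 0 < (x + δ + 1) ^ (2 * al) := Real.rpow_pos_of_pos (by linarith) _
    rw [le_div_iff₀ (by positivity)]
    have h2al : 0 < r ^ (2 * al) := Real.rpow_pos_of_pos hr0 _
    have s1 : C * δ ^ 2 * (x + δ + 1) ^ (2 * al) * (1 + Real.log (x + δ + 1)) ≤
        C * δ ^ 2 * (2 * r ^ (2 * al)) * r ^ (ε / 16) := by
      apply mul_le_mul _ hl1 hl0.le (by positivity)
      exact mul_le_mul_of_nonneg_left hp (by positivity)
    have s2 : r ^ (ε / 2) * (C * δ ^ 2 * (2 * r ^ (2 * al)) * r ^ (ε / 16)) =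
        (2 * C * r ^ (ε / 2 + ε / 16)) * (δ ^ 2 * r ^ (2 * al)) := by
      rw [Real.rpow_add hr0]; ring
    have s3 : h ^ 4 = r ^ ε * (δ ^ 2 * r ^ (2 * al)) := by
      rw [hh, hδ, ← Real.rpow_natCast, ← Real.rpow_natCast, ← Real.rpow_mul hr0.le,
        ← Real.rpow_mul hr0.le, ← Real.rpow_add hr0, ← Real.rpow_add hr0]
      congr 1
      push_cast
      ring
    have hε2 : 0 < r ^ (ε / 2) := Real.rpow_pos_of_pos hr0 _
    calc r ^ (ε / 2) * (C * δ ^ 2 * (x + δ + 1) ^ (2 * al) * (1 + Real.log (x + δ + 1)))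
        ≤ r ^ (ε / 2) * (C * δ ^ 2 * (2 * r ^ (2 * al)) * r ^ (ε / 16)) :=
          mul_le_mul_of_nonneg_left s1 hε2.le
      _ = (2 * C * r ^ (ε / 2 + ε / 16)) * (δ ^ 2 * r ^ (2 * al)) := s2
      _ ≤ r ^ ε * (δ ^ 2 * r ^ (2 * al)) := mul_le_mul_of_nonneg_right he1 (by positivity)
      _ = h ^ 4 := s3.symm
  · intro y hy0 hy2
    have e0 : w ^ (2 * d) * (4 * (J : ℝ)) ^ (2 * d) = m ^ (2 * d) := by rw [← mul_pow, hwm]
    have hp : y ^ (2 * al + ε / 2) ≤ 4 * r ^ (2 * al + ε / 2) := by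
      calc y ^ (2 * al + ε / 2) ≤ (2 * r) ^ (2 * al + ε / 2) :=
            Real.rpow_le_rpow hy0.le hy2 (by linarith)
        _ = 2 ^ (2 * al + ε / 2) * r ^ (2 * al + ε / 2) := Real.mul_rpow (by norm_num) hr0.le
        _ ≤ 4 * r ^ (2 * al + ε / 2) := by
            apply mul_le_mul_of_nonneg_right _ (Real.rpow_nonneg hr0.le _)
            calc (2 : ℝ) ^ (2 * al + ε / 2) ≤ 2 ^ (2 : ℝ) :=
                  Real.rpow_le_rpow_of_exponent_le (by norm_num) (by linarith)
              _ = 4 := by norm_num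
    have h4J2 : (4 * (J : ℝ)) ^ (2 * d) ≤ 8 ^ (2 * d) * r ^ (ε / 8) := by
      have h1 := pow_le_pow_left₀ (by positivity) h4J 2
      have e3 : ((4 * (J : ℝ)) ^ d) ^ 2 = (4 * (J : ℝ)) ^ (2 * d) := by
        rw [← pow_mul]; congr 1; ring
      have e4 : ((8 : ℝ) ^ d * r ^ (ε / 16)) ^ 2 = 8 ^ (2 * d) * r ^ (ε / 8) := by
        rw [mul_pow, ← pow_mul, mul_comm d 2, ← Real.rpow_natCast (r ^ (ε / 16)),
          ← Real.rpow_mul hr0.le]
        congr 2
        push_cast; ring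
      rw [e3, e4] at h1
      exact h1
    have hyp : 0 < y ^ (2 * al + ε / 2) := Real.rpow_pos_of_pos hy0 _
    rw [le_div_iff₀ (by positivity)]
    have hε2 : 0 < r ^ (ε / 2) := Real.rpow_pos_of_pos hr0 _
    have hrp : 0 < r ^ (2 * al + ε / 2) := Real.rpow_pos_of_pos hr0 _
    have s1 : r ^ (ε / 2) * (C * m ^ (2 * d) * y ^ (2 * al + ε / 2)) ≤
        r ^ (ε / 2) * (C * (w ^ (2 * d) * (8 ^ (2 * d) * r ^ (ε / 8))) *
          (4 * r ^ (2 * al + ε / 2))) := by
      apply mul_le_mul_of_nonneg_left _ hε2.le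
      rw [← e0]
      apply mul_le_mul _ hp hyp.le (by positivity)
      apply mul_le_mul_of_nonneg_left _ (by linarith)
      exact mul_le_mul_of_nonneg_left h4J2 (by positivity)
    have s2 : r ^ (ε / 2) * (C * (w ^ (2 * d) * (8 ^ (2 * d) * r ^ (ε / 8))) *
          (4 * r ^ (2 * al + ε / 2))) =
        (64 * 8 ^ (2 * d) * C * r ^ (ε / 8 + ε / 2 + ε / 2)) *
          (w ^ (2 * d) * (r ^ (2 * al) / 16)) := by
      rw [Real.rpow_add hr0, Real.rpow_add hr0, Real.rpow_add hr0]; ring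
    have s3 : r ^ (2 * ε) * (w ^ (2 * d) * (r ^ (2 * al) / 16)) = w ^ (2 * d) * m ^ 2 := by
      have : m ^ 2 = r ^ (2 * ε) * r ^ (2 * al) / 16 := by
        rw [hm, hδ, div_pow, ← Real.rpow_natCast (r ^ (al + ε)), ← Real.rpow_mul hr0.le,
          ← Real.rpow_add hr0]
        norm_num
        congr 1
        ring
      rw [this]; ring
    calc _ ≤ _ := s1
      _ = _ := s2
      _ ≤ r ^ (2 * ε) * (w ^ (2 * d) * (r ^ (2 * al) / 16)) :=
        mul_le_mul_of_nonneg_right he2 (by positivity)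
      _ = _ := s3

/-! ## the process -/

theorem rad_mono {d : ℕ} (hom : 0 < om d) {s t : ℕ} (h : s ≤ t) : rad d s ≤ rad d t := by
  unfold rad
  apply Real.rpow_le_rpow (by positivity) _ (by positivity)
  have : (s : ℝ) ≤ t := by exact_mod_cast h
  exact div_le_div_of_nonneg_right this hom.le

theorem rad_nonneg (d s : ℕ) (hom : 0 < om d) : 0 ≤ rad d s := by
  unfold rad
  exact Real.rpow_nonneg (by positivity) _

theorem rad_pow {d : ℕ} (hd : 3 ≤ d) (hom : 0 < om d) (t : ℕ) :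
    (t : ℝ) = om d * rad d t ^ d := by
  unfold rad
  have hd0 : (d : ℝ) ≠ 0 := by
    have : (3 : ℝ) ≤ d := by exact_mod_cast hd
    linarith
  rw [← Real.rpow_natCast, ← Real.rpow_mul (by positivity), one_div_mul_cancel hd0, Real.rpow_one]
  field_simp

theorem rad_tendsto {d : ℕ} (hd : 3 ≤ d) (hom : 0 < om d) :
    Tendsto (fun t : ℕ => rad d t) atTop atTop := by
  unfold rad
  have h0 : (0 : ℝ) < 1 / d := by
    have : (3 : ℝ) ≤ d := by exact_mod_cast hd
    positivity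
  refine (tendsto_rpow_atTop h0).comp ?_
  exact (tendsto_natCast_atTop_atTop).atTop_div_const hom

theorem Eg_sum (hBAS : S_BAS) {d : ℕ} (ν : PMF ℕ) (hd : 3 ≤ d) (D : ℕ → Set (Site d)) (n : ℕ)
    {ι : Type} (S : Finset ι) (f : ι → Finset (Site d) → ℝ≥0∞) :
    Eg ν D n (fun A => ∑ i ∈ S, f i A) = ∑ i ∈ S, Eg ν D n (f i) := by
  have h := (hBAS d ν hd).2.2.2.2.2.2
  rw [h D (fun A => ∑ i ∈ S, f i A) n]
  simp only [Finset.sum_mul]
  rw [Summable.tsum_finsetSum (fun _ _ => ENNReal.summable)]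
  exact Finset.sum_congr rfl fun i _ => (h D (f i) n).symm

theorem KD_sum (hBAS : S_BAS) {d : ℕ} (ν : PMF ℕ) (hd : 3 ≤ d) (D : Set (Site d))
    (A : Finset (Site d)) {ι : Type} (S : Finset ι) (f : ι → Finset (Site d) → ℝ≥0∞) :
    KD ν D (fun B => ∑ i ∈ S, f i B) A = ∑ i ∈ S, KD ν D (f i) A := by
  have h := (hBAS d ν hd).2.2.2.1
  rw [h D (fun A => ∑ i ∈ S, f i A) A]
  simp only [Finset.sum_mul]
  rw [Summable.tsum_finsetSum (fun _ _ => ENNReal.summable)]
  exact Finset.sum_congr rfl fun i _ => (h D (f i) A).symm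

/-- the aggregate leaves the domain through a site near the boundary -/
theorem leave (hBAS : S_BAS) (hSUP : S_SUP0) {d : ℕ} (ν : PMF ℕ) (hd : 3 ≤ d) {R' R : ℝ}
    (hR : 0 ≤ R) (hR' : R' ≤ R) (A : Finset (Site d)) (hA : (A : Set (Site d)) ⊆ Bl d R') :
    KD ν (Bl d R) (ind fun B : Finset (Site d) => ¬ (B : Set (Site d)) ⊆ Bl d R) A ≤
      ∑ z ∈ (bF d (R + 1)).filter (fun z => R < nrm z),
        KD ν (Bl d R) (ind fun B : Finset (Site d) => z ∈ B) A := by
  classical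
  have h := (hBAS d ν hd).2.2.2.1
  rw [← KD_sum hBAS ν hd, h, h (Bl d R) (fun B => ∑ i ∈ _, _) A]
  apply ENNReal.tsum_le_tsum
  intro B
  by_cases hB : KD ν (Bl d R) (ind fun C => C = B) A = 0
  · rw [hB, mul_zero, mul_zero]
  · apply mul_le_mul_left
    obtain ⟨_, h2⟩ := hSUP d ν R A B hd hR hB
    by_cases hsub : (B : Set (Site d)) ⊆ Bl d R
    · have : ind (fun B : Finset (Site d) => ¬ (B : Set (Site d)) ⊆ Bl d R) B = 0 := by
        unfold ind; rw [if_neg (not_not.2 hsub)]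
      rw [this]; exact zero_le
    · have e : ind (fun B : Finset (Site d) => ¬ (B : Set (Site d)) ⊆ Bl d R) B = 1 := by
        unfold ind; rw [if_pos hsub]
      rw [e]
      rw [Set.not_subset] at hsub
      obtain ⟨x, hxB, hxR⟩ := hsub
      have hxR' : R < nrm x := by
        simpa [Bl] using hxR
      have hxA : x ∉ A := by
        intro hxA
        have : nrm x ≤ R' := hA hxA
        linarith
      have hx1 : nrm x ≤ R + 1 := (h2 x hxB).resolve_left hxA
      have hmem : x ∈ (bF d (R + 1)).filter (fun z => R < nrm z) := by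
        rw [Finset.mem_filter, mem_bF]; exact ⟨hx1, hxR'⟩
      have h1 : (1 : ℝ≥0∞) = ind (fun B : Finset (Site d) => x ∈ B) B :=
        (if_pos (show x ∈ B from hxB)).symm
      rw [h1]
      exact Finset.single_le_sum (f := fun i => ind (fun B : Finset (Site d) => i ∈ B) B)
        (fun _ _ => zero_le) hmem

theorem card_bF {d : ℕ} {A0 r ρ : ℝ} (hA0 : 0 ≤ A0) (hom : 0 < om d) (hd : 3 ≤ d)
    (hcnt : ∀ ρ : ℝ, 1 ≤ ρ → |((bF d ρ).card : ℝ) - om d * ρ ^ d| ≤ A0 * ρ ^ (d - 1))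
    (hr : 1 ≤ r) (hρ : ρ ≤ 2 * r) : ((bF d ρ).card : ℝ) ≤ (om d + A0) * (2 * r) ^ d := by
  have h1 : (bF d ρ).card ≤ (bF d (2 * r)).card := by
    apply Finset.card_le_card
    intro x hx
    rw [mem_bF] at hx ⊢
    linarith
  have h2 := (abs_le.1 (hcnt (2 * r) (by linarith))).2
  have h3 : (2 * r) ^ (d - 1) ≤ (2 * r) ^ d := pow_le_pow_right₀ (by linarith) (by omega)
  have h4 : ((bF d ρ).card : ℝ) ≤ ((bF d (2 * r)).card : ℝ) := by exact_mod_cast h1
  have h5 : A0 * (2 * r) ^ (d - 1) ≤ A0 * (2 * r) ^ d := mul_le_mul_of_nonneg_left h3 hA0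
  linarith

theorem two_pow_ge (J : ℕ) : (4 : ℝ) / 2 ^ J ≤ 4 * Real.exp (-(1 / 2 * (J : ℝ))) := by
  have h1 : Real.exp (1 / 2 * (J : ℝ)) ≤ 2 ^ J := by
    rw [← Real.exp_log (show (0 : ℝ) < 2 ^ J by positivity), Real.log_pow]
    apply Real.exp_le_exp.2
    have := Real.log_two_gt_d9
    have h2 : (0 : ℝ) ≤ J := by positivity
    nlinarith
  rw [Real.exp_neg, div_eq_mul_inv]
  apply mul_le_mul_of_nonneg_left _ (by norm_num)
  exact inv_anti₀ (Real.exp_pos _) h1

/-- **FN1.** -/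
theorem t_FN1 : S_FN1 := by
  classical
  intro hBAS hSEG hCHN hPI hPO hSUP hCNT d _ ν ε hd hH hε hε4
  have hd3 : (3 : ℝ) ≤ d := by exact_mod_cast hd
  obtain ⟨hom, A0, hA0, hcnt⟩ := hCNT d hd
  obtain ⟨C1, hC1, hPI'⟩ := hPI d ν hd hH
  obtain ⟨C2, hC2, hPO'⟩ := hPO d ν (ε / 2) (max 4 C1) hd hH (by positivity) (by linarith)
    (le_max_left _ _)
  have hta : 0 ≤ ta d / 2 ∧ ta d / 2 ≤ 1 / 2 := by
    unfold ta; split_ifs <;> norm_num
  have hκ : 0 < ε / (16 * d) := by positivity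
  obtain ⟨κ, hκd⟩ : ∃ κ, κ = ε / (16 * d) := ⟨_, rfl⟩
  have hκ0 : 0 < κ := hκd ▸ hκ
  have hκ2 : κ ≤ ε / 2 := by
    rw [hκd]
    apply div_le_div_of_nonneg_left hε.le (by norm_num) (by linarith)
  obtain ⟨A, hA⟩ : ∃ A, A = om d + A0 := ⟨_, rfl⟩
  have hA1 : 1 ≤ A := by linarith
  have hev := (rad_tendsto hd hom).eventually
    ((ev_prm d hd (ta d / 2) ε (max C1 C2) (max 4 C1) hta.1 hta.2 hε hε4
      (hC1.trans (le_max_left _ _))).and (ev_fin (A := 7 * (A * 2 ^ d) ^ 3) (p := 3 * d) hκ0))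
  rw [eventually_atTop] at hev
  obtain ⟨T, hT⟩ := hev
  refine ⟨κ / 2, max T 1, by positivity, ?_⟩
  intro Ω mΩ P X hX t ht
  obtain ⟨⟨m, h, w, J, hprm⟩, hfin⟩ := hT t ((le_max_left _ _).trans ht)
  have ht1 : 1 ≤ t := (le_max_right _ _).trans ht
  obtain ⟨n, rfl⟩ : ∃ n, t = n + 1 := ⟨t - 1, by omega⟩
  obtain ⟨r, hr⟩ : ∃ r, r = rad d (n + 1) := ⟨_, rfl⟩
  obtain ⟨δ, hδ⟩ : ∃ δ, δ = r ^ (ta d / 2 + ε) := ⟨_, rfl⟩
  rw [← hr, ← hδ] at hprm
  rw [← hr] at hfin ⊢
  rw [← hδ]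
  have hr1 := hprm.r1
  have hr0 : 0 < r := by linarith
  have hm4 := hprm.mdef
  have hδ1 := hprm.dpos
  have hδr := hprm.dle
  have hh0 : 0 < h := lt_of_lt_of_le (by linarith [le_max_left C1 C2]) hprm.hC
  have hhm := hprm.hle
  have hm0 : 0 < m := by linarith
  have hhδ : h ≤ δ := by linarith
  have h2al : 2 * (ta d / 2) = ta d := by ring
  obtain ⟨E, hE⟩ : ∃ E, E = Real.exp (-(1 / 2 * r ^ κ)) := ⟨_, rfl⟩
  have hE0 : 0 < E := hE ▸ Real.exp_pos _
  have hexpE : Real.exp (-(r ^ (ε / 2))) ≤ E := by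
    rw [hE]
    apply Real.exp_le_exp.2
    have h1 : r ^ κ ≤ r ^ (ε / 2) := Real.rpow_le_rpow_of_exponent_le hr1 hκ2
    have h2 : 0 ≤ r ^ κ := Real.rpow_nonneg hr0.le _
    linarith
  obtain ⟨N, hN⟩ : ∃ N, N = A * (2 * r) ^ d := ⟨_, rfl⟩
  have hN1 : 1 ≤ N := by
    rw [hN]
    have : (1 : ℝ) ≤ (2 * r) ^ d := one_le_pow₀ (by linarith)
    nlinarith
  have hcard : ∀ ρ, ρ ≤ 2 * r → ((bF d ρ).card : ℝ) ≤ N := by
    intro ρ hρ
    rw [hN, hA]
    exact card_bF (by linarith) hom hd hcnt hr1 hρ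
  have hnN : (n : ℝ) ≤ N := by
    have h1 : ((n + 1 : ℕ) : ℝ) = om d * r ^ d := hr ▸ rad_pow hd hom (n + 1)
    have h2 : (n : ℝ) ≤ om d * r ^ d := by rw [← h1]; push_cast; linarith
    have h3 : om d * r ^ d ≤ A * (2 * r) ^ d := by
      apply mul_le_mul (by linarith) _ (by positivity) (by linarith)
      apply pow_le_pow_left₀ hr0.le (by linarith)
    linarith
  -- the inner bound for one site
  have hin : ∀ s, s ≤ n → ∀ z : Site d, z ≠ 0 → C1 * h ≤ rad d (s + 1) →
      nrm z ≤ rad d (s + 1) - h →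
      Eg ν (Dm d (4 * m)) s (ind fun A : Finset (Site d) => z ∉ A) ≤ ENNReal.ofReal E := by
    intro s hs z hz hCh hnz
    have hx : rad d (s + 1) ≤ r := hr ▸ rad_mono hom (by omega)
    have hx0 : 0 ≤ rad d (s + 1) := rad_nonneg d _ hom
    have hlg := hprm.hlog _ hx hx0
    have hl1 : 0 ≤ Real.log (rad d (s + 1) + δ + 1) := Real.log_nonneg (by linarith)
    have h1 : C1 * (1 + Real.log (rad d (s + 1) + δ + 1)) ≤ h := by
      refine le_trans ?_ hlg
      exact mul_le_mul_of_nonneg_right (le_max_left _ _) (by linarith)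
    have h2 := hPI' s δ h z hz hh0 hhδ h1 hCh hnz
    rw [hm4]
    refine h2.trans (ENNReal.ofReal_le_ofReal (le_trans (Real.exp_le_exp.2 ?_) hexpE))
    rw [neg_le_neg_iff]
    have h3 := hprm.e1 _ hx hx0
    rw [h2al] at h3
    refine h3.trans ?_
    have hp0 : 0 < (rad d (s + 1) + δ + 1) ^ ta d := Real.rpow_pos_of_pos (by linarith) _
    apply div_le_div_of_nonneg_left (by positivity) (by positivity)
    have hc : C1 ≤ max C1 C2 := le_max_left _ _
    gcongr
  -- the outer bound for one site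
  have hout : ∀ s, s < n → ∀ z : Site d, rad d (s + 2) + 4 * m < nrm z →
      nrm z ≤ rad d (s + 2) + 4 * m + 1 →
      Eg ν (Dm d (4 * m)) s (fun A => KD ν (Dm d (4 * m) (s + 1))
        (ind fun B : Finset (Site d) => z ∈ B) A) ≤ ENNReal.ofReal (5 * E + N * E) := by
    intro s hs z hz1 hz2
    have hx : rad d (s + 2) ≤ r := hr ▸ rad_mono hom (by omega)
    have hx0 : 0 ≤ rad d (s + 2) := rad_nonneg d _ hom
    have hx' : rad d (s + 1) ≤ r := hr ▸ rad_mono hom (by omega)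
    have hy1 : 1 ≤ rad d (s + 2) + 4 * m := by linarith
    have hy2 : rad d (s + 2) + 4 * m ≤ 2 * r := by linarith
    have hl1 : 0 ≤ Real.log (rad d (s + 2) + 4 * m) := Real.log_nonneg hy1
    have hw0 : 0 < w := lt_of_lt_of_le (by linarith [le_max_left C1 C2]) hprm.wC
    have hmom : C2 * m * (h + (1 + m / h) * (1 + Real.log (rad d (s + 2) + 4 * m))) * m ^ d ≤
        w ^ d * m ^ 2 := by
      refine le_trans ?_ (hprm.mom _ hy1 hy2)
      have hc : C2 ≤ max C1 C2 := le_max_right _ _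
      have : 0 ≤ h + (1 + m / h) * (1 + Real.log (rad d (s + 2) + 4 * m)) := by positivity
      gcongr
    have hb := hPO' s J m h w z hprm.J2 ((le_max_right _ _).trans hprm.wC) hprm.Jw
      ((le_max_right _ _).trans hprm.hC) hprm.hle hz1 hz2 hmom
    refine hb.trans ?_
    have b1 : ENNReal.ofReal (4 / 2 ^ J) ≤ ENNReal.ofReal (4 * E) := by
      apply ENNReal.ofReal_le_ofReal
      refine (two_pow_ge J).trans ?_
      apply mul_le_mul_of_nonneg_left _ (by norm_num)
      rw [hE, hκd]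
      apply Real.exp_le_exp.2
      have := hprm.Jr
      linarith
    have b2 : ENNReal.ofReal (Real.exp (-(w ^ (2 * d) * m ^ 2 /
        (C2 * m ^ (2 * d) * (rad d (s + 2) + 4 * m) ^ (ta d + ε / 2))))) ≤
        ENNReal.ofReal E := by
      apply ENNReal.ofReal_le_ofReal
      refine le_trans (Real.exp_le_exp.2 ?_) hexpE
      rw [neg_le_neg_iff]
      have h3 := hprm.e2 _ (show 0 < rad d (s + 2) + 4 * m by linarith) hy2
      rw [h2al] at h3
      refine h3.trans ?_
      have hp0 : 0 < (rad d (s + 2) + 4 * m) ^ (ta d + ε / 2) :=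
        Real.rpow_pos_of_pos (by linarith) _
      apply div_le_div_of_nonneg_left (by positivity) (by positivity)
      have hc : C2 ≤ max C1 C2 := le_max_right _ _
      gcongr
    have b3 : (if max 4 C1 * h ≤ rad d (s + 1) then
        ∑ y ∈ (bF d (rad d (s + 1) - h)).erase 0,
          Eg ν (Dm d (4 * m)) s (ind fun A : Finset (Site d) => y ∉ A)
        else 0) ≤ ENNReal.ofReal (N * E) := by
      split_ifs with hK
      · have hK' : C1 * h ≤ rad d (s + 1) :=
          (mul_le_mul_of_nonneg_right (le_max_right _ _) hh0.le).trans hK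
        calc ∑ y ∈ (bF d (rad d (s + 1) - h)).erase 0,
              Eg ν (Dm d (4 * m)) s (ind fun A : Finset (Site d) => y ∉ A)
            ≤ ∑ _y ∈ (bF d (rad d (s + 1) - h)).erase 0, ENNReal.ofReal E := by
              apply Finset.sum_le_sum
              intro y hy
              rw [Finset.mem_erase, mem_bF] at hy
              exact hin s hs.le y hy.1 hK' hy.2
          _ = (((bF d (rad d (s + 1) - h)).erase 0).card : ℝ≥0∞) * ENNReal.ofReal E := by
              rw [Finset.sum_const, nsmul_eq_mul]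
          _ ≤ ENNReal.ofReal N * ENNReal.ofReal E := by
              apply mul_le_mul_left
              rw [← ENNReal.ofReal_natCast]
              apply ENNReal.ofReal_le_ofReal
              have h1 : (((bF d (rad d (s + 1) - h)).erase 0).card : ℝ) ≤
                  ((bF d (rad d (s + 1) - h)).card : ℝ) := by
                exact_mod_cast Finset.card_le_card (Finset.erase_subset _ _)
              exact h1.trans (hcard _ (by linarith))
          _ = ENNReal.ofReal (N * E) := (ENNReal.ofReal_mul (by linarith)).symm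
      · exact zero_le
    have e : ENNReal.ofReal (5 * E + N * E) = ENNReal.ofReal (4 * E) + ENNReal.ofReal E +
        ENNReal.ofReal (N * E) := by
      rw [← ENNReal.ofReal_add (by positivity) (by positivity),
        ← ENNReal.ofReal_add (by positivity) (by positivity)]
      congr 1; ring
    rw [e]
    exact add_le_add (add_le_add b1 b2) b3
  -- the chain
  have hR0 : ∀ s : ℕ, 0 ≤ rad d (s + 1) + 4 * m := fun s => by
    have := rad_nonneg d (s + 1) hom
    linarith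
  have hchn := hCHN d ν Ω mΩ P X (fun s => rad d (s + 1) + 4 * m) n
    (fun B => ¬ ((∀ z : Site d, nrm z ≤ r - δ → z ∈ B) ∧ ∀ z ∈ B, nrm z ≤ r + δ)) hd hH hX hR0
  refine hchn.trans ?_
  have hDm : (fun s : ℕ => Bl d (rad d (s + 1) + 4 * m)) = Dm d (4 * m) := rfl
  -- first term
  have first : Eg ν (fun s => Bl d (rad d (s + 1) + 4 * m)) n
      (ind fun B : Finset (Site d) =>
        ¬ ((∀ z : Site d, nrm z ≤ r - δ → z ∈ B) ∧ ∀ z ∈ B, nrm z ≤ r + δ)) ≤
      ENNReal.ofReal (N * E) := by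
    calc _ ≤ Eg ν (fun s => Bl d (rad d (s + 1) + 4 * m)) n
          (fun A => ∑ z ∈ (bF d (r - δ)).erase 0, ind (fun A : Finset (Site d) => z ∉ A) A) := by
          apply hSEG d ν (fun s => rad d (s + 1) + 4 * m) n _ _ hd hR0
          intro A hA0 hAR
          by_cases hG : ((∀ z : Site d, nrm z ≤ r - δ → z ∈ A) ∧ ∀ z ∈ A, nrm z ≤ r + δ)
          · have : ind (fun B : Finset (Site d) =>
              ¬ ((∀ z : Site d, nrm z ≤ r - δ → z ∈ B) ∧ ∀ z ∈ B, nrm z ≤ r + δ)) A = 0 :=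
              if_neg (not_not.2 hG)
            rw [this]; exact zero_le
          · have e : ind (fun B : Finset (Site d) =>
              ¬ ((∀ z : Site d, nrm z ≤ r - δ → z ∈ B) ∧ ∀ z ∈ B, nrm z ≤ r + δ)) A = 1 :=
              if_pos hG
            rw [e]
            have hout' : ∀ z ∈ A, nrm z ≤ r + δ := by
              intro z hz
              have : nrm z ≤ rad d (n + 1) + 4 * m := hAR hz
              rw [← hr, hm4] at this
              exact this
            have hin' : ¬ ∀ z : Site d, nrm z ≤ r - δ → z ∈ A := fun h => hG ⟨h, hout'⟩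
            push Not at hin'
            obtain ⟨x, hx1, hx2⟩ := hin'
            have hx0 : x ≠ 0 := fun h0 => hx2 (h0 ▸ hA0)
            have hmem : x ∈ (bF d (r - δ)).erase 0 := by
              rw [Finset.mem_erase, mem_bF]; exact ⟨hx0, hx1⟩
            have h1 : (1 : ℝ≥0∞) = ind (fun A : Finset (Site d) => x ∉ A) A :=
              (if_pos hx2).symm
            rw [h1]
            exact Finset.single_le_sum (f := fun i => ind (fun A : Finset (Site d) => i ∉ A) A)
              (fun _ _ => zero_le) hmem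
      _ = ∑ z ∈ (bF d (r - δ)).erase 0, Eg ν (Dm d (4 * m)) n
            (ind fun A : Finset (Site d) => z ∉ A) := by
          rw [hDm]
          exact Eg_sum hBAS ν hd _ n _ (fun z => ind fun A : Finset (Site d) => z ∉ A)
      _ ≤ ∑ _z ∈ (bF d (r - δ)).erase 0, ENNReal.ofReal E := by
          apply Finset.sum_le_sum
          intro z hz
          rw [Finset.mem_erase, mem_bF] at hz
          refine hin n le_rfl z hz.1 ?_ (by rw [← hr]; linarith [hz.2])
          rw [← hr]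
          exact (mul_le_mul_of_nonneg_right (le_max_right _ _) hh0.le).trans hprm.Kh
      _ = (((bF d (r - δ)).erase 0).card : ℝ≥0∞) * ENNReal.ofReal E := by
          rw [Finset.sum_const, nsmul_eq_mul]
      _ ≤ ENNReal.ofReal N * ENNReal.ofReal E := by
          apply mul_le_mul_left
          rw [← ENNReal.ofReal_natCast]
          apply ENNReal.ofReal_le_ofReal
          have h1 : (((bF d (r - δ)).erase 0).card : ℝ) ≤ ((bF d (r - δ)).card : ℝ) := by
            exact_mod_cast Finset.card_le_card (Finset.erase_subset _ _)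
          exact h1.trans (hcard _ (by linarith))
      _ = ENNReal.ofReal (N * E) := (ENNReal.ofReal_mul (by linarith)).symm
  -- the other terms
  have second : ∀ s ∈ range n, Eg ν (fun s => Bl d (rad d (s + 1) + 4 * m)) s
      (fun A => KD ν (Bl d (rad d (s + 1 + 1) + 4 * m))
        (ind fun B : Finset (Site d) => ¬ (B : Set (Site d)) ⊆ Bl d (rad d (s + 1 + 1) + 4 * m)) A)
      ≤ ENNReal.ofReal (N * (5 * E + N * E)) := by
    intro s hs
    rw [Finset.mem_range] at hs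
    have hmono : rad d (s + 1) ≤ rad d (s + 1 + 1) := rad_mono hom (by omega)
    have hx : rad d (s + 1 + 1) ≤ r := hr ▸ rad_mono hom (by omega)
    calc _ ≤ Eg ν (fun s => Bl d (rad d (s + 1) + 4 * m)) s
          (fun A => ∑ z ∈ (bF d (rad d (s + 1 + 1) + 4 * m + 1)).filter
            (fun z => rad d (s + 1 + 1) + 4 * m < nrm z),
            KD ν (Bl d (rad d (s + 1 + 1) + 4 * m))
              (ind fun B : Finset (Site d) => z ∈ B) A) := by
          apply hSEG d ν (fun s => rad d (s + 1) + 4 * m) s _ _ hd hR0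
          intro A _ hAR
          exact leave hBAS hSUP ν hd (hR0 (s + 1)) (by linarith) A hAR
      _ = ∑ z ∈ (bF d (rad d (s + 1 + 1) + 4 * m + 1)).filter
            (fun z => rad d (s + 1 + 1) + 4 * m < nrm z),
            Eg ν (Dm d (4 * m)) s (fun A => KD ν (Dm d (4 * m) (s + 1))
              (ind fun B : Finset (Site d) => z ∈ B) A) := by
          rw [hDm]
          exact Eg_sum hBAS ν hd _ s _ (fun z A => KD ν (Dm d (4 * m) (s + 1))
              (ind fun B : Finset (Site d) => z ∈ B) A)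
      _ ≤ ∑ _z ∈ (bF d (rad d (s + 1 + 1) + 4 * m + 1)).filter
            (fun z => rad d (s + 1 + 1) + 4 * m < nrm z), ENNReal.ofReal (5 * E + N * E) := by
          apply Finset.sum_le_sum
          intro z hz
          rw [Finset.mem_filter, mem_bF] at hz
          exact hout s hs z hz.2 hz.1
      _ = ((((bF d (rad d (s + 1 + 1) + 4 * m + 1)).filter
            (fun z => rad d (s + 1 + 1) + 4 * m < nrm z)).card : ℕ) : ℝ≥0∞) *
            ENNReal.ofReal (5 * E + N * E) := by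
          rw [Finset.sum_const, nsmul_eq_mul]
      _ ≤ ENNReal.ofReal N * ENNReal.ofReal (5 * E + N * E) := by
          apply mul_le_mul_left
          rw [← ENNReal.ofReal_natCast]
          apply ENNReal.ofReal_le_ofReal
          have h1 : ((((bF d (rad d (s + 1 + 1) + 4 * m + 1)).filter
            (fun z => rad d (s + 1 + 1) + 4 * m < nrm z)).card : ℕ) : ℝ) ≤
              ((bF d (rad d (s + 1 + 1) + 4 * m + 1)).card : ℝ) := by
            exact_mod_cast Finset.card_le_card (Finset.filter_subset _ _)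
          exact h1.trans (hcard _ (by linarith))
      _ = ENNReal.ofReal (N * (5 * E + N * E)) := (ENNReal.ofReal_mul (by linarith)).symm
  have total : ENNReal.ofReal (N * E) +
      ∑ s ∈ range n, ENNReal.ofReal (N * (5 * E + N * E)) ≤
      ENNReal.ofReal (Real.exp (-(r ^ (κ / 2)))) := by
    rw [Finset.sum_const, card_range, nsmul_eq_mul, ← ENNReal.ofReal_natCast,
      ← ENNReal.ofReal_mul (by positivity), ← ENNReal.ofReal_add (by positivity) (by positivity)]
    apply ENNReal.ofReal_le_ofReal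
    have hN0 : 0 < N := by linarith
    have h1 : (n : ℝ) * (N * (5 * E + N * E)) ≤ N * (N * (5 * E + N * E)) :=
      mul_le_mul_of_nonneg_right hnN (by positivity)
    have hNN : N ≤ N ^ 3 := by nlinarith [sq_nonneg N, mul_pos hN0 hN0]
    have hNN2 : N ^ 2 ≤ N ^ 3 := by nlinarith [sq_nonneg N, mul_pos hN0 hN0]
    have h2 : N * E + N * (N * (5 * E + N * E)) ≤ 7 * N ^ 3 * E := by
      have : N * E + N * (N * (5 * E + N * E)) = (N + 5 * N ^ 2 + N ^ 3) * E := by ring
      rw [this]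
      exact mul_le_mul_of_nonneg_right (by linarith) hE0.le
    have h3 : 7 * N ^ 3 * E = 7 * (A * 2 ^ d) ^ 3 * r ^ ((3 : ℝ) * d) *
        Real.exp (-(1 / 2 * r ^ κ)) := by
      rw [hE, hN]
      have : r ^ ((3 : ℝ) * d) = (r ^ d) ^ 3 := by
        rw [← pow_mul, ← Real.rpow_natCast]
        congr 1
        push_cast; ring
      rw [this]; ring
    rw [h3] at h2
    linarith
  exact (add_le_add first (Finset.sum_le_sum second)).trans total

end Pool.Agent.H33.BD.FN1
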